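import Pool.Agent.E8helper21.QT.Fam

/-! Project F1, piece FAM, on light imports (copies of the definitions). -/

set_option autoImplicit false
set_option linter.unusedSectionVars false

open Complex

namespace Pool.Agent.E8helper23.F1

open Pool.Agent.Y699
open H385 (ZI RQ im1 nrm)
open Pool.Agent.H304R3.HK (tc)
open Pool.Agent.W164.RC (Ip Ip_spec Ip_three)
open Pool.Agent.E8helper21.QT

/-- the primes (copy) -/
noncomputable def prQ (P : Finset ℕ) (q : ℕ) (i : Option (Ix P)) : ZI :=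
  i.elim (-(q : ZI)) (prP P)

variable {P : Finset ℕ} {q : ℕ}

lemma PP_q (hq : q.Prime) (h3 : q % 4 = 3) : PP (-(q : ZI)) :=
  PP_ip hq (by rw [Ip_three h3]; simp)

lemma pfQ (hP : Cls P) (hq : q.Prime) (h3 : q % 4 = 3) : PF (prQ P q) := by
  refine ⟨?_, ?_⟩
  · rintro (_ | i)
    · exact PP_q hq h3
    · exact (pf hP).pp i
  · have key : ∀ i : Ix P, prP P i ≠ -(q : ZI) := by
      intro i h
      have h1 := prP_nrm hP i
      rw [h, nrm_inert] at h1
      have h2 := (hP i.1 i.1.2).1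
      rw [← h1] at h2
      exact Nat.not_prime_mul hq.one_lt.ne' hq.one_lt.ne' h2
    rintro (_ | i) (_ | j) h
    · rfl
    · exact absurd h.symm (key j)
    · exact absurd h (key i)
    · exact congrArg some ((pf hP).inj h)

lemma DDQ (hP : Cls P) : DD (prQ P q) Finset.univ = -((nD P * q : ℕ) : ZI) := by
  have h1 := DD_eq hP
  unfold DD at h1 ⊢
  rw [Fintype.prod_option]
  have h2 : ∏ i : Ix P, prQ P q (some i) = ((nD P : ℕ) : ZI) := h1
  rw [h2]
  show -(q : ZI) * _ = _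
  push_cast
  ring

lemma q_pow (hq : q.Prime) (h3 : q % 4 = 3) : (-(q : ZI)) ∣ pi1 ^ (q - 1) - im1 ^ 3 := by
  obtain ⟨r, hr⟩ := exists_add_pow_prime_eq hq (1 : ZI) im1
  have e1 : (1 : ZI) + im1 = pi1 := by decide
  have e2 : im1 ^ q = im1 ^ 3 := unit_pow_mod im1_norm (by omega)
  have e3 : (1 : ZI) + im1 ^ 3 = im1 ^ 3 * pi1 := by decide
  rw [e1, one_pow, e2, e3] at hr
  have e4 : pi1 ^ q = pi1 * pi1 ^ (q - 1) := by
    rw [← pow_succ']
    congr 1
    have := hq.one_lt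
    omega
  have h5 : (-(q : ZI)) ∣ pi1 * (pi1 ^ (q - 1) - im1 ^ 3) := by
    refine (neg_dvd).2 ⟨im1 * r, ?_⟩
    rw [e4] at hr
    linear_combination hr
  have hpp := PP_q hq h3
  rcases hpp.pr.dvd_or_dvd h5 with h6 | h6
  · exact absurd h6 (pi1_ndvd hpp)
  · exact h6

lemma q4_q (hq : q.Prime) {k : ℕ} (hk : q = 4 * k + 3) :
    q4 (-(q : ZI)) pi1 = im1 ^ (3 * (k + 1)) := by
  have h3 : q % 4 = 3 := by omega
  have hpp := PP_q hq h3
  apply q4_eq hpp
  · exact Val4.pow (Or.inr im1_norm) _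
  · obtain ⟨k', hk', hk2⟩ := inert_quarter h3
    have : k' = k := by omega
    subst this
    rw [nrm_inert, hk2]
    have h1 := q_pow hq h3
    have h2 : q - 1 = 4 * k' + 2 := by omega
    rw [h2] at h1
    rw [pow_mul, pow_mul im1 3]
    exact h1.trans (sub_dvd_pow_sub_pow _ _ _)

lemma mod_rel (hP : Cls P) {k : ℕ} (hk : q = 4 * k + 3) (hm : (nD P * q) % 16 = 11) :
    (k + 3 * sq4 P) % 4 = 2 := by
  have h1 := prod_mod16 hP
  rw [Nat.mul_mod, h1, hk, ← Nat.mul_mod] at hm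
  set s := sq4 P
  have e : (1 + 4 * s) * (4 * k + 3) = (4 * k + 3 + 12 * s) + 16 * (s * k) := by ring
  rw [e, Nat.add_mul_mod_self_left] at hm
  omega

lemma c4Q (hP : Cls P) (hq : q.Prime) {k : ℕ} (hk : q = 4 * k + 3) :
    c4 (prQ P q) Finset.univ on1 pi1 = im1 ^ (3 * (k + 1)) * im1 ^ sq4 P := by
  have h3 : q % 4 = 3 := by omega
  rw [c4_one_exp (pfQ hP hq h3), Fintype.prod_option]
  have h1 := c4_pi_val hP
  rw [c4_one_exp (pf hP)] at h1
  have h2 : ∏ i : Ix P, q4 (prQ P q (some i)) pi1 = im1 ^ sq4 P := h1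
  rw [h2]
  have h4 : q4 (prQ P q none) pi1 = im1 ^ (3 * (k + 1)) := q4_q hq hk
  rw [h4]

lemma WtQ (hP : Cls P) {k : ℕ} (hk : q = 4 * k + 3) (hm : (nD P * q) % 16 = 11) :
    Wt (prQ P q) Finset.univ on1 % 4 = 2 := by
  have h3 : q % 4 = 3 := by omega
  rw [Wt_on1, Fintype.sum_option]
  have h1 := sum_wq hP
  have h2 : ∑ i : Ix P, wq (prQ P q (some i)) = 2 * sq4 P := h1
  rw [h2]
  obtain ⟨k', hk', hk2⟩ := inert_quarter h3
  have : k' = k := by omega
  subst this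
  have h4 : wq (prQ P q none) = (4 * k' + 2) * (k' + 1) := by
    show nrm (-(q : ZI)) / 4 = _
    rw [nrm_inert, hk2]
  rw [h4]
  have h5 := mod_rel hP hk hm
  have e : (4 * k' + 2) * (k' + 1) + 2 * sq4 P = 2 * (k' + 1 + sq4 P) + 4 * (k' * (k' + 1)) := by ring
  rw [e]
  omega

lemma etQ (hP : Cls P) (hq : q.Prime) {k : ℕ} (hk : q = 4 * k + 3) (hm : (nD P * q) % 16 = 11) :
    et (prQ P q) Finset.univ on1 = -I := by
  unfold et
  have h5 := mod_rel hP hk hm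
  rw [c4Q hP hq hk, ← pow_add, unit_pow_mod im1_norm (n := 1) (by omega), pow_one]
  have e : star (im1 : ZI) = -im1 := by decide
  rw [e]
  have h1 := tc_im1
  unfold tc at h1 ⊢
  simp only [Zsqrtd.re_neg, Zsqrtd.im_neg, Int.cast_neg]
  linear_combination -h1

lemma rQ (hr : ∃ p ∈ P, p % 8 = 5) (hP : Cls P) : ∃ r : Option (Ix P), wq (prQ P q r) % 2 = 1 := by
  obtain ⟨p, hp, h8⟩ := hr
  refine ⟨some (⟨p, hp⟩, false), ?_⟩
  show (nrm (prP P (⟨p, hp⟩, false)) / 4) % 2 = 1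
  rw [prP_nrm hP]
  show p / 4 % 2 = 1
  omega

/-- the core -/
theorem core (hP : Cls P) (hq : q.Prime) (h3 : q % 4 = 3) (hm : (nD P * q) % 16 = 11)
    (hr : ∃ p ∈ P, p % 8 = 5) : PF (prQ P q) ∧
    DD (prQ P q) Finset.univ = -((nD P * q : ℕ) : ZI) ∧
    Wt (prQ P q) Finset.univ on1 % 4 = 2 ∧
    et (prQ P q) Finset.univ on1 = -I ∧ ∃ r : Option (Ix P), wq (prQ P q r) % 2 = 1 := by
  obtain ⟨k, hk⟩ : ∃ k, q = 4 * k + 3 := ⟨q / 4, by omega⟩
  exact ⟨pfQ hP hq h3, DDQ hP, WtQ hP hk hm, etQ hP hq hk hm, rQ hr hP⟩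

end Pool.Agent.E8helper23.F1
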